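import Pool.Agent.Lib.MP_52d0c2_ag.Ex7

namespace Pool.Agent.Results.MP_52d0c2_ag.ReducedCounterexample

open Pool.Agent.Lib.MP_52d0c2_ag

/-- A toric Bayesian network whose non-sink subgraph is not perfect. Moreover the underlying graph
is connected, no vertex is a child of all other non-sinks, and no edge is covered. -/
theorem result :
    ∃ (n : ℕ) (pa : Fin n → Finset (Fin n)) (κ : Fin n → ℕ),
      (∀ j, ∀ i ∈ pa j, i < j) ∧ (∀ i, 2 ≤ κ i) ∧
      IsToricNet pa κ ∧ ¬ NonSinkPerfect pa ∧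
      (SimpleGraph.fromRel fun i j => i ∈ pa j).Connected ∧
      (∀ j, ∃ i l, i ≠ j ∧ i ∈ pa l ∧ i ∉ pa j) ∧
      (∀ i j, pa j ≠ insert i (pa i)) :=
  ⟨7, Seven.pa7, Seven.k7, by decide, fun _ => le_rfl, Seven.isToricNet7,
    by unfold NonSinkPerfect; decide, by decide, by decide, by decide⟩

end Pool.Agent.Results.MP_52d0c2_ag.ReducedCounterexample
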